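import Pool.Agent.V5helper51.SG.Rough
import Pool.Agent.V5helper51.MW.Mus
import Pool.Agent.Y877.SxO

/-! # Goldbach representations of the multiples of a small primorial in short windows -/

set_option autoImplicit false

namespace Pool.Agent.V5helper51.SG

open Finset
open Pool.Agent.H373R2.T7
open Pool.Agent.Y877.SX
open Pool.Agent.V5helper51.MW (S_LAS)

/-- the energy of order one of an injective sequence -/
lemma energy_one {x : ℕ} {s : ℕ → ℤ} (hs : ∀ m ∈ Icc 1 x, ∀ m' ∈ Icc 1 x, s m = s m' → m = m') : energy 1 x s ≤ x := by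
  unfold energy
  have h1 : ((((Fintype.piFinset fun _ : Fin 1 => Icc 1 x) ×ˢ (Fintype.piFinset fun _ : Fin 1 => Icc 1 x)).filter
      (fun q => ∑ i, s (q.1 i) = ∑ i, s (q.2 i)))).card ≤ (Icc 1 x).card := by
    apply card_le_card_of_injOn (fun q => q.1 0)
    · intro q hq
      rw [mem_coe, mem_filter, mem_product, Fintype.mem_piFinset] at hq
      exact hq.1.1 0
    · intro q hq q' hq' h
      rw [mem_coe, mem_filter, mem_product, Fintype.mem_piFinset, Fintype.mem_piFinset] at hq hq'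
      simp only [Fin.sum_univ_one] at hq hq'
      have a1 := hs _ (hq.1.1 0) _ (hq.1.2 0) hq.2
      have a2 := hs _ (hq'.1.1 0) _ (hq'.1.2 0) hq'.2
      simp only at h
      refine Prod.ext ?_ ?_
      · funext i
        rw [Fin.fin_one_eq_zero i]
        exact h
      · funext i
        rw [Fin.fin_one_eq_zero i, ← a1, ← a2]
        exact h
  rw [Nat.card_Icc, Nat.add_sub_cancel] at h1
  exact h1

/-- the prime powers -/
lemma pp_le (x h : ℕ) (S : Finset ℕ) (hS : S ⊆ Icc 1 x) (h1 : x < h) (h2 : h ≤ 2 * x) :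
    ∑ s ∈ S, (if (h - s).Prime then (0 : ℝ) else ArithmeticFunction.vonMangoldt (h - s)) ≤
      2 * √((2 * x : ℕ) : ℝ) * Real.log ((2 * x : ℕ) : ℝ) := by
  have h3 := Chebyshev.psi_sub_theta_le (x := ((2 * x : ℕ) : ℝ)) (by exact_mod_cast (by omega : 1 ≤ 2 * x))
  rw [Chebyshev.psi_sub_theta_eq_sum_not_prime, Nat.floor_natCast, sum_filter] at h3
  refine le_trans ?_ h3
  have e1 : ∑ s ∈ S, (if (h - s).Prime then (0 : ℝ) else ArithmeticFunction.vonMangoldt (h - s)) =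
      ∑ n ∈ S.image (fun s => h - s), (if ¬ n.Prime then ArithmeticFunction.vonMangoldt n else (0 : ℝ)) := by
    rw [sum_image]
    · apply sum_congr rfl
      intro s _
      by_cases hp : (h - s).Prime
      · rw [if_pos hp, if_neg (not_not.2 hp)]
      · rw [if_neg hp, if_pos hp]
    · intro a ha b hb hab
      have h4 := mem_Icc.1 (hS ha)
      have h5 := mem_Icc.1 (hS hb)
      simp only at hab
      omega
  rw [e1]
  apply sum_le_sum_of_subset_of_nonneg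
  · intro n hn
    rw [mem_image] at hn
    obtain ⟨s, hs, rfl⟩ := hn
    have h4 := mem_Icc.1 (hS hs)
    rw [mem_Ioc]
    omega
  · intro n _ _
    split_ifs
    · exact le_rfl
    · exact ArithmeticFunction.vonMangoldt_nonneg

open Classical in
theorem shifts_short (hLAS : S_LAS) (A : ℕ) (δ : ℝ) (hδ : 0 < δ) : ∃ K0 : ℕ, ∀ K1 : ℕ, ∃ D x0 : ℕ, ∀ x : ℕ, x0 ≤ x →
    ∀ y : ℕ, K0 * Real.log (Real.log x) ≤ y → y ≤ K1 * Real.log (Real.log x) →
    ∀ S : Finset ℕ, S ⊆ Icc 1 x → (x : ℝ) ≤ S.card * Real.log x ^ A → (∀ s ∈ S, ∀ p : ℕ, p.Prime → p ≤ y → ¬ p ∣ s) →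
    ∀ g0 G : ℕ, x ≤ primorial y * g0 → primorial y * (g0 + G) ≤ 2 * x →
    (x : ℝ) ^ (1 / 3 : ℝ) * Real.log x ^ D ≤ primorial y * G →
    (((Icc 1 G).filter (fun g => ((S.filter (fun s => (primorial y * (g0 + g) - s).Prime)).card : ℝ) *
      Real.log (2 * (x : ℝ)) < (1 - 3 * δ) * (S.card * (Vz y)⁻¹))).card : ℝ) ≤ 2 * δ * G := by
  obtain ⟨K0, hK01, hrm⟩ := rough8 A δ δ hδ hδ
  refine ⟨K0, fun K1 => ?_⟩
  obtain ⟨D0, B0, hB0⟩ := hLAS 1 1 (2 * K1) 1 (A + 1) le_rfl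
  obtain ⟨N1, hN1⟩ := hB0 (B0 + 3)
  obtain ⟨x1, hx1⟩ := hrm (B0 + 3)
  obtain ⟨x2, hx2⟩ := Filter.eventually_atTop.1 (Pool.Agent.Y614.GJ.Core.ev_log (A + 2) (s := 1 / 2) (by norm_num)
    (Real.exp 1 + 4 + K1 + 1 / δ ^ 2 + 12 / δ))
  refine ⟨D0 + 2 * K1, N1 + x1 + x2 + 1, fun x hx y hy1 hy2 S hS hSc hSp g0 G hg0 hg1 hg2 => ?_⟩
  have hN1' := hN1 x (by omega)
  have hx1' := hx1 x (by omega)
  obtain ⟨hL, hLp⟩ := hx2 x (by omega)
  have hxr : (1 : ℝ) ≤ x := by exact_mod_cast (by omega : 1 ≤ x)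
  have hx0 : (0 : ℝ) < x := by linarith
  obtain ⟨L, hLd⟩ : ∃ L, L = Real.log (x : ℝ) := ⟨_, rfl⟩
  rw [← hLd] at hy1 hy2 hSc hg2 hN1' hx1' hL hLp
  have he0 := Real.exp_pos 1
  have hK10 : (0 : ℝ) ≤ K1 := Nat.cast_nonneg _
  have hd1 : 0 < 1 / δ ^ 2 := by positivity
  have hd2 : 0 < 12 / δ := by positivity
  have hL1 : Real.exp 1 ≤ L := by linarith
  have hL2 : 4 ≤ L := by linarith
  have hL3 : (K1 : ℝ) ≤ L := by linarith
  have hL4 : 1 / δ ^ 2 ≤ L := by linarith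
  have hL5 : 12 / δ ≤ L := by linarith
  have hL0 : 0 < L := by linarith
  have hLone : 1 ≤ L := by linarith
  obtain ⟨z, hzd⟩ : ∃ z, z = ⌈L ^ (B0 + 2)⌉₊ := ⟨_, rfl⟩
  have hz1 : L ^ (B0 + 2) ≤ z := by rw [hzd]; exact Nat.le_ceil _
  have hz1' : L ^ B0 ≤ z := (pow_le_pow_right₀ hLone (by omega)).trans hz1
  have hz2 : (z : ℝ) ≤ L ^ (B0 + 3) := by
    have h1 : (z : ℝ) < L ^ (B0 + 2) + 1 := by rw [hzd]; exact Nat.ceil_lt_add_one (by positivity)
    have h2 : L ^ (B0 + 3) = L ^ (B0 + 2) * L := pow_succ _ _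
    have h3 : 1 ≤ L ^ (B0 + 2) := one_le_pow₀ hLone
    have h4 : L ^ (B0 + 2) * 2 ≤ L ^ (B0 + 2) * L := mul_le_mul_of_nonneg_left (by linarith) (by linarith)
    rw [h2]
    linarith
  have hzL : L ^ 2 ≤ z := (pow_le_pow_right₀ hLone (by omega)).trans hz1
  have hlL : 1 ≤ Real.log L := by
    rw [← Real.log_exp 1]
    exact Real.log_le_log (Real.exp_pos 1) hL1
  obtain ⟨M, hMd⟩ : ∃ M, M = primorial y := ⟨_, rfl⟩
  have hML : (M : ℝ) ≤ L ^ (2 * K1) := by rw [hMd]; exact primorial_le_log K1 y L hL1 hy2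
  have hM1 : 1 ≤ M := by rw [hMd]; exact primorial_pos y
  rw [← hMd] at hg0 hg1 hg2 ⊢
  have hMp : ∀ p : ℕ, p.Prime → p ≤ y → p ∣ M := fun p hp hpy => by
    rw [hMd]
    exact hp.dvd_primorial_iff.2 hpy
  have hMq : ∀ p ∈ mid y z, ¬ p ∣ M := fun p hp hd => by
    rw [hMd, (mem_mid.1 hp).2.2.dvd_primorial_iff] at hd
    have := (mem_mid.1 hp).1
    omega
  have hyz : y ≤ z := by
    have hy3 : (y : ℝ) ≤ z := by
      have h1 : Real.log L ≤ L := (Real.log_le_sub_one_of_pos hL0).trans (by linarith)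
      calc (y : ℝ) ≤ K1 * Real.log L := hy2
        _ ≤ L * L := mul_le_mul hL3 h1 (by linarith) hL0.le
        _ = L ^ 2 := by ring
        _ ≤ z := hzL
    exact_mod_cast hy3
  have hG0 : (0 : ℝ) ≤ G := Nat.cast_nonneg G
  have hx13 : 0 < (x : ℝ) ^ (1 / 3 : ℝ) := by positivity
  have hGx : (x : ℝ) ^ (1 / 3 : ℝ) * L ^ D0 ≤ G := by
    have h1 : (x : ℝ) ^ (1 / 3 : ℝ) * L ^ D0 * L ^ (2 * K1) ≤ G * L ^ (2 * K1) := by
      calc (x : ℝ) ^ (1 / 3 : ℝ) * L ^ D0 * L ^ (2 * K1) = (x : ℝ) ^ (1 / 3 : ℝ) * L ^ (D0 + 2 * K1) := by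
            rw [pow_add]
            ring
        _ ≤ M * G := hg2
        _ ≤ L ^ (2 * K1) * G := mul_le_mul_of_nonneg_right hML hG0
        _ = _ := mul_comm _ _
    exact le_of_mul_le_mul_right h1 (by positivity)
  have hG8 : (x : ℝ) ^ (1 / 8 : ℝ) ≤ G := by
    calc (x : ℝ) ^ (1 / 8 : ℝ) ≤ (x : ℝ) ^ (1 / 3 : ℝ) := Real.rpow_le_rpow_of_exponent_le hxr (by norm_num)
      _ ≤ (x : ℝ) ^ (1 / 3 : ℝ) * L ^ D0 := le_mul_of_one_le_right hx13.le (one_le_pow₀ hLone)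
      _ ≤ G := hGx
  have hGpos : (0 : ℝ) < G := lt_of_lt_of_le (by positivity) hG8
  have hG1 : 1 ≤ G := by
    have : 0 < G := by exact_mod_cast hGpos
    omega
  obtain ⟨m, hmd⟩ : ∃ m : ℝ, m = (S.card : ℝ) := ⟨_, rfl⟩
  have hm0 : 0 < m := by
    by_contra h
    push Not at h
    have : m * L ^ A ≤ 0 := mul_nonpos_of_nonpos_of_nonneg h (by positivity)
    rw [hmd] at this
    linarith
  have hδm : 0 < δ * m := by positivity
  have hVy := Vz_pos y
  have hVz := Vz_pos z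
  have hVm := Vm_pos y z
  have hVy1 : 1 ≤ (Vz y)⁻¹ := by
    rw [one_le_inv₀ hVy]
    exact Vz_le_one y
  have hsplit := Vz_split y z hyz
  have hr := hx1' y z hy1 hyz hz2 S hS hSc M hMq (fun s => M * g0 - s) (by
    intro s hs t ht p w h1 h2
    have h3 : s ≤ x := (mem_Icc.1 (hS hs)).2
    have h4 : t ≤ x := (mem_Icc.1 (hS ht)).2
    have := dvd_D_neg 1 (Or.inl rfl) p s t w (M * g0) (by rw [pow_one]; omega) (by rw [pow_one]; omega)
      (by rw [pow_one]; exact h1) (by rw [pow_one]; exact h2)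
    exact this) G hG8
  rw [← hmd] at hr hSc ⊢
  have hsx : ∀ s ∈ S, 1 ≤ s ∧ s ≤ x := fun s hs => mem_Icc.1 (hS hs)
  have hrange : ∀ g ∈ Icc 1 G, x < M * (g0 + g) ∧ M * (g0 + g) ≤ 2 * x := by
    intro g hg
    rw [mem_Icc] at hg
    refine ⟨?_, le_trans (Nat.mul_le_mul_left _ (by omega)) hg1⟩
    rw [mul_add]
    have : 0 < M * g := Nat.mul_pos hM1 (by omega)
    omega
  -- the bilinear bound
  obtain ⟨c, hc⟩ : ∃ c : ℕ → ℂ, c = fun a : ℕ => if x + 1 - a ∈ S then 1 else 0 := ⟨_, rfl⟩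
  obtain ⟨sg, hsg⟩ : ∃ sg : ℕ → ℤ, sg = fun g : ℕ => (M : ℤ) * ((g0 : ℤ) + (g : ℤ)) - ((x : ℤ) + 1) := ⟨_, rfl⟩
  have hMGx : M * G ≤ x := by
    rw [mul_add] at hg1
    omega
  have hbil := hN1' (M * G) (by
      calc (x : ℝ) ^ (1 / 3 : ℝ) * L ^ D0 ≤ G := hGx
        _ ≤ ((M * G : ℕ) : ℝ) := by exact_mod_cast Nat.le_mul_of_pos_left G hM1) hMGx G sg ((M : ℤ) * g0 - x - 1) (by
      have h1 : (x : ℤ) ≤ M * g0 := by exact_mod_cast hg0
      have h2 : (M : ℤ) * g0 ≤ 2 * x := by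
        have : M * g0 ≤ 2 * x := le_trans (Nat.mul_le_mul_left M (by omega)) hg1
        exact_mod_cast this
      have h3 : (1 : ℤ) ≤ x := by exact_mod_cast (by omega : 1 ≤ x)
      rw [abs_le]
      push_cast
      constructor <;> linarith) (by
      intro g hg
      rw [mem_Icc] at hg
      have e1 : sg g - ((M : ℤ) * g0 - x - 1) = M * g := by
        rw [hsg]
        ring
      rw [e1, abs_of_nonneg (by positivity)]
      push_cast
      rw [one_mul]
      have : (g : ℤ) ≤ G := by exact_mod_cast hg.2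
      exact mul_le_mul_of_nonneg_left this (by positivity)) (by
      have h1 : energy 1 G sg ≤ G := by
        apply energy_one
        intro a _ b _ hab
        rw [hsg] at hab
        simp only at hab
        have h2 : (M : ℤ) * (a : ℤ) = M * b := by linarith
        have h3 : (a : ℤ) = b := mul_left_cancel₀ (by exact_mod_cast (by omega : M ≠ 0)) h2
        exact_mod_cast h3
      have h2 : (energy 1 G sg : ℝ) ≤ G := by exact_mod_cast h1
      calc (energy 1 G sg : ℝ) * (M * G : ℕ) ≤ G * (M * G : ℕ) := mul_le_mul_of_nonneg_right h2 (Nat.cast_nonneg _)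
        _ = M * G ^ 2 := by push_cast; ring
        _ ≤ L ^ (2 * K1) * (G : ℝ) ^ (2 * 1) := by
            rw [mul_one]
            exact mul_le_mul_of_nonneg_right hML (by positivity)) x (by omega) z hz1' hz2 c (by
      have h1 : ∀ a ∈ Icc 1 x, ‖c a‖ ^ 2 ≤ 1 := by
        intro a _
        rw [hc]
        simp only
        split_ifs <;> simp
      refine (sum_le_sum h1).trans ?_
      rw [sum_const, Nat.card_Icc, nsmul_eq_mul, mul_one, Nat.add_sub_cancel]
      exact le_mul_of_one_le_right hx0.le (one_le_pow₀ hLone))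
  have hinner : ∀ g ∈ Icc 1 G, ‖∑ a ∈ Icc 1 x, c a * ((lamI (a + sg g) - lamzI z (a + sg g) : ℝ) : ℂ)‖ =
      |∑ s ∈ S, (ArithmeticFunction.vonMangoldt (M * (g0 + g) - s) - lamz z (M * (g0 + g) - s))| := by
    intro g hg
    have hgr := hrange g hg
    have e1 : ∑ a ∈ Icc 1 x, c a * ((lamI (a + sg g) - lamzI z (a + sg g) : ℝ) : ℂ) =
        ((∑ s ∈ S, (ArithmeticFunction.vonMangoldt (M * (g0 + g) - s) - lamz z (M * (g0 + g) - s)) : ℝ) : ℂ) := by
      push_cast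
      have e2 : ∑ s ∈ S, (((ArithmeticFunction.vonMangoldt (M * (g0 + g) - s) : ℝ) : ℂ) -
          ((lamz z (M * (g0 + g) - s) : ℝ) : ℂ)) =
          ∑ a ∈ (Icc 1 x).filter (fun a => x + 1 - a ∈ S), (((lamI (a + sg g) : ℝ) : ℂ) - ((lamzI z (a + sg g) : ℝ) : ℂ)) := by
        refine sum_bij' (fun s _ => x + 1 - s) (fun a _ => x + 1 - a) ?_ ?_ ?_ ?_ ?_
        · intro s hs
          have h1 := hsx s hs
          rw [mem_filter, mem_Icc]
          refine ⟨⟨by omega, by omega⟩, ?_⟩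
          have : x + 1 - (x + 1 - s) = s := by omega
          rw [this]
          exact hs
        · intro a ha
          exact (mem_filter.1 ha).2
        · intro s hs
          have h1 := hsx s hs
          omega
        · intro a ha
          have := mem_Icc.1 (mem_filter.1 ha).1
          omega
        · intro s hs
          have h1 := hsx s hs
          have e3 : ((x + 1 - s : ℕ) : ℤ) + sg g = ((M * (g0 + g) - s : ℕ) : ℤ) := by
            rw [hsg]
            push_cast [Nat.cast_sub (by omega : s ≤ x + 1), Nat.cast_sub (by omega : s ≤ M * (g0 + g))]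
            ring
          rw [e3]
          unfold lamI lamzI
          rw [if_pos (by exact_mod_cast (by omega : 1 ≤ M * (g0 + g) - s)),
            if_pos (by exact_mod_cast (by omega : 1 ≤ M * (g0 + g) - s)), Int.toNat_natCast]
      rw [e2, sum_filter]
      refine sum_congr rfl fun a _ => ?_
      rw [hc]
      simp only
      split_ifs
      · rw [one_mul]
      · rw [zero_mul]
    rw [e1, Complex.norm_real, Real.norm_eq_abs]
  rw [sum_congr rfl hinner] at hbil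
  -- the three bad sets
  obtain ⟨cX, hcX⟩ : ∃ cX : ℕ → ℝ, ∀ g, cX g = ((S.filter (fun s => ∀ p ∈ mid y z, ¬ p ∣ (M * g0 - s) + M * g)).card : ℝ) :=
    ⟨_, fun _ => rfl⟩
  obtain ⟨T, hT⟩ : ∃ T : ℕ → ℝ, ∀ g, T g = ∑ s ∈ S, ArithmeticFunction.vonMangoldt (M * (g0 + g) - s) := ⟨_, fun _ => rfl⟩
  obtain ⟨PP, hPPd⟩ : ∃ PP : ℕ → ℝ, ∀ g, PP g = ∑ s ∈ S, (if (M * (g0 + g) - s).Prime then (0 : ℝ) else
    ArithmeticFunction.vonMangoldt (M * (g0 + g) - s)) := ⟨_, fun _ => rfl⟩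
  obtain ⟨B1, hB1⟩ : ∃ B1, B1 = (Icc 1 G).filter (fun g => cX g < (1 - δ) * (m * Vm y z)) := ⟨_, rfl⟩
  obtain ⟨B2, hB2⟩ : ∃ B2, B2 = (Icc 1 G).filter (fun g => (1 - δ) * (m * Vm y z) ≤ cX g ∧
    T g < (1 - 2 * δ) * (m * (Vz y)⁻¹)) := ⟨_, rfl⟩
  have hPP : ∀ g ∈ Icc 1 G, PP g ≤ δ * m := by
    intro g hg
    rw [hPPd]
    refine (pp_le x _ S hS (hrange g hg).1 (hrange g hg).2).trans ?_
    have h1 : Real.log ((2 * x : ℕ) : ℝ) ≤ 2 * L := by
      push_cast
      rw [Real.log_mul (by norm_num) hx0.ne', ← hLd]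
      have := Real.log_two_lt_d9
      linarith
    have h2 : √((2 * x : ℕ) : ℝ) ≤ 2 * (x : ℝ) ^ (1 / 2 : ℝ) := by
      rw [← Real.sqrt_eq_rpow, show (2 : ℝ) * √(x : ℝ) = √((4 * x : ℝ)) by
        rw [Real.sqrt_mul (by norm_num), show (4 : ℝ) = 2 ^ 2 by norm_num, Real.sqrt_sq (by norm_num)]]
      apply Real.sqrt_le_sqrt
      push_cast
      linarith
    have h3 : (x : ℝ) ^ (1 / 2 : ℝ) * (x : ℝ) ^ (1 / 2 : ℝ) = x := by
      rw [← Real.rpow_add hx0]
      norm_num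
    have hlog0 : 0 ≤ Real.log ((2 * x : ℕ) : ℝ) := Real.log_natCast_nonneg _
    have hs0 : 0 < (x : ℝ) ^ (1 / 2 : ℝ) := by positivity
    have h4 : 2 * √((2 * x : ℕ) : ℝ) * Real.log ((2 * x : ℕ) : ℝ) ≤ 8 * ((x : ℝ) ^ (1 / 2 : ℝ) * L) := by
      calc 2 * √((2 * x : ℕ) : ℝ) * Real.log ((2 * x : ℕ) : ℝ) ≤ 2 * (2 * (x : ℝ) ^ (1 / 2 : ℝ)) * (2 * L) := by gcongr
        _ = _ := by ring
    refine h4.trans ?_
    have h5 : 8 ≤ δ * L := by
      rw [div_le_iff₀ hδ] at hL5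
      linarith
    have h6 : 8 * ((x : ℝ) ^ (1 / 2 : ℝ) * L) * L ^ A ≤ δ * m * L ^ A := by
      calc 8 * ((x : ℝ) ^ (1 / 2 : ℝ) * L) * L ^ A = (x : ℝ) ^ (1 / 2 : ℝ) * (8 * L ^ (A + 1)) := by
            rw [pow_succ]
            ring
        _ ≤ (x : ℝ) ^ (1 / 2 : ℝ) * ((δ * L) * L ^ (A + 1)) := by gcongr
        _ = (x : ℝ) ^ (1 / 2 : ℝ) * δ * L ^ (A + 2) := by
            rw [pow_succ L (A + 1)]
            ring
        _ ≤ (x : ℝ) ^ (1 / 2 : ℝ) * δ * (x : ℝ) ^ (1 / 2 : ℝ) := mul_le_mul_of_nonneg_left hLp (by positivity)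
        _ = δ * x := by
            rw [mul_right_comm, h3]
            ring
        _ ≤ δ * (m * L ^ A) := mul_le_mul_of_nonneg_left hSc hδ.le
        _ = _ := by ring
    exact le_of_mul_le_mul_right h6 (by positivity)
  have c1 : (B1.card : ℝ) ≤ δ * G := by
    have : B1 = (Icc 1 G).filter (fun g => ((S.filter (fun s => ∀ p ∈ mid y z, ¬ p ∣ (M * g0 - s) + M * g)).card : ℝ) <
      (1 - δ) * (m * Vm y z)) := by
      rw [hB1]
      ext g
      rw [mem_filter, mem_filter, hcX]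
    rw [this]
    exact hr
  have c2 : (B2.card : ℝ) ≤ δ * G := by
    have h1 : ∀ g ∈ B2, δ * m ≤
        |∑ s ∈ S, (ArithmeticFunction.vonMangoldt (M * (g0 + g) - s) - lamz z (M * (g0 + g) - s))| := by
      intro g hg
      rw [hB2, mem_filter] at hg
      obtain ⟨hg, h2, h3⟩ := hg
      have hgr := hrange g hg
      rw [sum_sub_distrib, ← hT]
      have h4 : ∑ s ∈ S, lamz z (M * (g0 + g) - s) = (Vz z)⁻¹ * cX g := by
        have : ∀ s ∈ S, lamz z (M * (g0 + g) - s) = if ∀ p ∈ mid y z, ¬ p ∣ (M * g0 - s) + M * g then (Vz z)⁻¹ else 0 := by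
          intro s hs
          have h8 := hsx s hs
          have h9 : M * (g0 + g) - s = (M * g0 - s) + M * g := by
            rw [mul_add]
            omega
          have h10 := lamz_eq_neg 1 y z M s (g0 + g) (by rw [pow_one]; omega) (hSp s hs) hMp
          rw [pow_one] at h10
          rw [h10, h9]
        rw [sum_congr rfl this, ← sum_filter, sum_const, nsmul_eq_mul, hcX, mul_comm]
      rw [h4]
      have h5 : (Vz z)⁻¹ * ((1 - δ) * (m * Vm y z)) = (1 - δ) * (m * (Vz y)⁻¹) := by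
        rw [hsplit, mul_inv]
        field_simp
      have h6 : (Vz z)⁻¹ * ((1 - δ) * (m * Vm y z)) ≤ (Vz z)⁻¹ * cX g := mul_le_mul_of_nonneg_left h2 (inv_pos.2 hVz).le
      have h7 : δ * m * 1 ≤ δ * m * (Vz y)⁻¹ := mul_le_mul_of_nonneg_left hVy1 hδm.le
      refine le_trans ?_ (neg_le_abs _)
      nlinarith
    have h2 : (B2.card : ℝ) * (δ * m) ≤ x * G / L ^ (A + 1) := by
      calc (B2.card : ℝ) * (δ * m) = ∑ _g ∈ B2, δ * m := by rw [sum_const, nsmul_eq_mul]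
        _ ≤ ∑ g ∈ B2, |∑ s ∈ S, (ArithmeticFunction.vonMangoldt (M * (g0 + g) - s) - lamz z (M * (g0 + g) - s))| :=
            sum_le_sum h1
        _ ≤ ∑ g ∈ Icc 1 G, |∑ s ∈ S, (ArithmeticFunction.vonMangoldt (M * (g0 + g) - s) - lamz z (M * (g0 + g) - s))| :=
            sum_le_sum_of_subset_of_nonneg (by rw [hB2]; exact filter_subset _ _) fun _ _ _ => abs_nonneg _
        _ ≤ _ := hbil
    have h3 : (x : ℝ) * G / L ^ (A + 1) ≤ (δ * G) * (δ * m) := by
      rw [div_le_iff₀ (by positivity)]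
      have hδ2 : 1 ≤ δ ^ 2 * L := by
        rw [div_le_iff₀ (by positivity)] at hL4
        linarith
      calc (x : ℝ) * G ≤ (m * L ^ A) * G := mul_le_mul_of_nonneg_right hSc hG0
        _ = (G * m * L ^ A) * 1 := by ring
        _ ≤ (G * m * L ^ A) * (δ ^ 2 * L) := mul_le_mul_of_nonneg_left hδ2 (by positivity)
        _ = (δ * G) * (δ * m) * L ^ (A + 1) := by rw [pow_succ]; ring
    exact le_of_mul_le_mul_right (h2.trans h3) hδm
  have hsub : (Icc 1 G).filter (fun g => ((S.filter (fun s => (M * (g0 + g) - s).Prime)).card : ℝ) *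
      Real.log (2 * (x : ℝ)) < (1 - 3 * δ) * (m * (Vz y)⁻¹)) ⊆ B1 ∪ B2 := by
    intro g hg
    rw [mem_filter] at hg
    obtain ⟨hg, hlt⟩ := hg
    by_contra hcon
    rw [mem_union] at hcon
    push Not at hcon
    obtain ⟨n1, n2⟩ := hcon
    have q1 : (1 - δ) * (m * Vm y z) ≤ cX g := by
      by_contra h
      push Not at h
      exact n1 (by rw [hB1]; exact mem_filter.2 ⟨hg, h⟩)
    have q2 : (1 - 2 * δ) * (m * (Vz y)⁻¹) ≤ T g := by
      by_contra h
      push Not at h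
      exact n2 (by rw [hB2]; exact mem_filter.2 ⟨hg, q1, h⟩)
    have q3 : PP g ≤ δ * m := hPP g hg
    have q4 : T g ≤ ((S.filter (fun s => (M * (g0 + g) - s).Prime)).card : ℝ) * Real.log (2 * (x : ℝ)) + PP g := by
      rw [hT, hPPd, card_eq_sum_ones, Nat.cast_sum, sum_mul, sum_filter, ← sum_add_distrib]
      apply sum_le_sum
      intro s hs
      by_cases hp : (M * (g0 + g) - s).Prime
      · rw [if_pos hp, if_pos hp, ArithmeticFunction.vonMangoldt_apply_prime hp, Nat.cast_one, one_mul, add_zero]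
        apply Real.log_le_log (by exact_mod_cast hp.pos)
        have h2 := (hrange g hg).2
        have h4 : M * (g0 + g) - s ≤ 2 * x := by omega
        exact_mod_cast h4
      · rw [if_neg hp, if_neg hp, zero_add]
    have q5 : δ * m * 1 ≤ δ * m * (Vz y)⁻¹ := mul_le_mul_of_nonneg_left hVy1 hδm.le
    nlinarith
  have h1 := (card_le_card hsub).trans (card_union_le B1 B2)
  have h3 : (((Icc 1 G).filter (fun g => ((S.filter (fun s => (M * (g0 + g) - s).Prime)).card : ℝ) *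
      Real.log (2 * (x : ℝ)) < (1 - 3 * δ) * (m * (Vz y)⁻¹))).card : ℝ) ≤ B1.card + B2.card := by
    exact_mod_cast h1
  linarith

end Pool.Agent.V5helper51.SG
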