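import Pool.Agent.V5helper51.SG.Short
import Pool.Agent.Y877.SxP

/-! # Goldbach representations of the multiples of a small primorial in short windows: sets of primes -/

set_option autoImplicit false

namespace Pool.Agent.V5helper51.SG

open Finset
open Pool.Agent.H373R2.T7
open Pool.Agent.Y877.SX
open Pool.Agent.V5helper51.MW (S_LAS)

/-- the primes of a set which are larger than `y` -/
lemma big_part {A K1 : ℕ} {δ : ℝ} (hδ : 0 < δ) (hδ8 : δ ≤ 1 / 8) : ∃ n0 : ℕ, ∀ n : ℕ, n0 ≤ n → ∀ y : ℕ,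
    y ≤ K1 * Real.log (Real.log n) → ∀ J : Finset ℕ, (∀ s ∈ J, s.Prime) →
    (n : ℝ) ≤ J.card * Real.log n ^ A →
    (1 - δ) * J.card ≤ (J.filter (fun j => y < j)).card ∧
    (n : ℝ) ≤ (J.filter (fun j => y < j)).card * Real.log n ^ (A + 1) ∧
    (∀ s ∈ J.filter (fun j => y < j), ∀ p : ℕ, p.Prime → p ≤ y → ¬ p ∣ s) := by
  obtain ⟨n1, hn1⟩ := ev_L' (max 2 (2 * (K1 + 1)))
  obtain ⟨n2, hn2⟩ := ev_log' (A + 1) (1 / δ)
  refine ⟨max n1 (max n2 1), fun n hn y hy2 J hJp hJ => ?_⟩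
  have b2 : n1 ≤ n := le_trans (le_max_left _ _) hn
  have b3 : n2 ≤ n := le_trans (le_trans (le_max_left _ _) (le_max_right _ _)) hn
  have b4 : 1 ≤ n := le_trans (le_trans (le_max_right _ _) (le_max_right _ _)) hn
  have hL := hn1 n b2
  have hs := hn2 n b3
  obtain ⟨L, hLd⟩ : ∃ L, L = Real.log n := ⟨_, rfl⟩
  rw [← hLd] at hL hs hy2 hJ ⊢
  have hL2 : 2 ≤ L := (le_max_left _ _).trans hL
  have hL1 : 1 ≤ L := by linarith
  have hL3 : 2 * ((K1 : ℝ) + 1) ≤ L := (le_max_right _ _).trans hL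
  have hL0 : 0 < L := by linarith
  have hnr : (1 : ℝ) ≤ n := by exact_mod_cast b4
  have hn0' : (0 : ℝ) < n := by linarith
  have hsn : √(n : ℝ) * √(n : ℝ) = n := Real.mul_self_sqrt hn0'.le
  have hsn0 : 0 < √(n : ℝ) := Real.sqrt_pos.2 hn0'
  have hlL : Real.log L ≤ L - 1 := Real.log_le_sub_one_of_pos hL0
  obtain ⟨J', hJ'⟩ : ∃ J' : Finset ℕ, J' = J.filter (fun j => y < j) := ⟨_, rfl⟩
  rw [← hJ']
  have hsmall : (J.card : ℝ) ≤ J'.card + (y + 1) := by
    have h1 : (J.filter (fun j => ¬ y < j)).card ≤ y + 1 := by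
      have h2 : (J.filter (fun j => ¬ y < j)).card ≤ (range (y + 1)).card := by
        apply card_le_card
        intro s hs
        rw [mem_filter] at hs
        rw [mem_range]
        omega
      rwa [card_range] at h2
    have h3 := card_filter_add_card_filter_not (s := J) (fun j => y < j)
    rw [← hJ'] at h3
    have h4 : J.card ≤ J'.card + (y + 1) := by omega
    exact_mod_cast h4
  have hyL : (y : ℝ) + 1 ≤ (K1 + 1) * L := by
    have : (K1 : ℝ) * Real.log L ≤ K1 * L := by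
      apply mul_le_mul_of_nonneg_left _ (Nat.cast_nonneg _)
      linarith
    linarith
  have hJbig : (y : ℝ) + 1 ≤ δ * J.card := by
    have h1 : 1 / δ * L ^ (A + 1) * √(n : ℝ) ≤ J.card * L ^ A := by
      calc 1 / δ * L ^ (A + 1) * √(n : ℝ) ≤ √n * √n := mul_le_mul_of_nonneg_right hs hsn0.le
        _ = n := hsn
        _ ≤ _ := hJ
    have h2 : 1 / δ * L * √(n : ℝ) ≤ J.card := by
      have h3 : 0 < L ^ A := by positivity
      have h4 : (1 / δ * L * √(n : ℝ)) * L ^ A ≤ J.card * L ^ A := by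
        refine le_trans (le_of_eq ?_) h1
        rw [pow_succ]
        ring
      exact le_of_mul_le_mul_right h4 h3
    have h5 : (K1 : ℝ) + 1 ≤ √n := by
      have h8 : 1 ≤ 1 / δ := by
        rw [le_div_iff₀ hδ]
        linarith
      have h9 : L ≤ L ^ (A + 1) := le_self_pow₀ hL1 (by omega)
      have h6 : L ≤ √(n : ℝ) := by
        calc L = 1 * L := (one_mul _).symm
          _ ≤ 1 / δ * L ^ (A + 1) := mul_le_mul h8 h9 hL0.le (by positivity)
          _ ≤ √(n : ℝ) := hs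
      linarith
    calc (y : ℝ) + 1 ≤ (K1 + 1) * L := hyL
      _ ≤ √n * L := mul_le_mul_of_nonneg_right h5 hL0.le
      _ = δ * (1 / δ * L * √(n : ℝ)) := by field_simp
      _ ≤ δ * J.card := mul_le_mul_of_nonneg_left h2 hδ.le
  have hJ0 : (0 : ℝ) ≤ J.card := Nat.cast_nonneg _
  have hJJ : (1 - δ) * J.card ≤ J'.card := by linarith
  refine ⟨hJJ, ?_, ?_⟩
  · have h1 : (J.card : ℝ) ≤ 2 * J'.card := by
      have : 1 / 2 * (J.card : ℝ) ≤ (1 - δ) * J.card := mul_le_mul_of_nonneg_right (by linarith) hJ0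
      linarith
    calc (n : ℝ) ≤ J.card * L ^ A := hJ
      _ ≤ (2 * J'.card) * L ^ A := by gcongr
      _ = J'.card * (L ^ A * 2) := by ring
      _ ≤ J'.card * (L ^ A * L) := by gcongr
      _ = _ := by rw [pow_succ]
  · intro s hs p hp hpy hd
    have h1 := (Nat.prime_dvd_prime_iff_eq hp (hJp s ((mem_filter.1 (by rw [hJ'] at hs; exact hs)).1))).1 hd
    rw [hJ', mem_filter] at hs
    omega

open Classical in
theorem step_short (hLAS : S_LAS) (A : ℕ) (ε : ℝ) (hε : 0 < ε) (hε1 : ε ≤ 1) : ∃ K0 : ℕ, ∀ K1 : ℕ, ∃ D x0 : ℕ,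
    ∀ x : ℕ, x0 ≤ x → ∀ y : ℕ, K0 * Real.log (Real.log x) ≤ y → y ≤ K1 * Real.log (Real.log x) →
    ∀ S : Finset ℕ, S ⊆ Icc 1 x → (∀ s ∈ S, s.Prime) → (x : ℝ) ≤ S.card * Real.log x ^ A →
    ∀ g0 G : ℕ, x ≤ primorial y * g0 → primorial y * (g0 + G) ≤ 2 * x →
    (x : ℝ) ^ (1 / 3 : ℝ) * Real.log x ^ D ≤ primorial y * G →
    (((Icc 1 G).filter (fun g => ((S.filter (fun s => (primorial y * (g0 + g) - s).Prime)).card : ℝ) <
      (1 - ε) * (S.card / (Vz y * Real.log x)))).card : ℝ) ≤ ε * G := by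
  obtain ⟨δ, hδd⟩ : ∃ δ, δ = ε / 8 := ⟨_, rfl⟩
  have hδ : 0 < δ := by rw [hδd]; positivity
  have hδ8 : δ ≤ 1 / 8 := by rw [hδd]; linarith
  obtain ⟨K0, hK0⟩ := shifts_short hLAS (A + 1) δ hδ
  refine ⟨K0, fun K1 => ?_⟩
  obtain ⟨D, n0, hn0⟩ := hK0 K1
  obtain ⟨n1, hn1⟩ := ev_L' (max 1 (1 / δ))
  obtain ⟨n2, hn2⟩ := big_part (A := A) (K1 := K1) hδ hδ8
  refine ⟨D, max n0 (max n1 (max n2 1)), fun n hn y hy1 hy2 J hJ1 hJp hJ g0 G hg0 hg1 hg2 => ?_⟩
  have b1 : n0 ≤ n := le_trans (le_max_left _ _) hn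
  have b2 : n1 ≤ n := le_trans (le_trans (le_max_left _ _) (le_max_right _ _)) hn
  have b3 : n2 ≤ n := le_trans (le_trans (le_trans (le_max_left _ _) (le_max_right _ _)) (le_max_right _ _)) hn
  have b4 : 1 ≤ n := le_trans (le_trans (le_trans (le_max_right _ _) (le_max_right _ _)) (le_max_right _ _)) hn
  have hL := hn1 n b2
  obtain ⟨J', hJ'⟩ : ∃ J' : Finset ℕ, J' = J.filter (fun j => y < j) := ⟨_, rfl⟩
  obtain ⟨hJJ, hJ'b, hJ'p⟩ := hn2 n b3 y hy2 J hJp hJ
  rw [← hJ'] at hJJ hJ'b hJ'p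
  obtain ⟨L, hLd⟩ : ∃ L, L = Real.log n := ⟨_, rfl⟩
  have key := hn0 n b1 y hy1 hy2
  have hn0' : (0 : ℝ) < n := by exact_mod_cast b4
  have hlogn : Real.log (2 * (n : ℝ)) = Real.log 2 + L := by
    rw [Real.log_mul (by norm_num) hn0'.ne', hLd]
  rw [← hLd] at hL hy1 hy2 hJ hg2 key hJ'b ⊢
  have hL1 : 1 ≤ L := (le_max_left _ _).trans hL
  have hLδ : 1 / δ ≤ L := (le_max_right _ _).trans hL
  have hL0 : 0 < L := by linarith
  have hJ0 : (0 : ℝ) ≤ J.card := Nat.cast_nonneg _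
  have hsubJ : J' ⊆ J := by rw [hJ']; exact filter_subset _ _
  have k1 := key J' (hsubJ.trans hJ1) hJ'b hJ'p g0 G hg0 hg1 hg2
  have hG0 : (0 : ℝ) ≤ G := Nat.cast_nonneg G
  refine le_trans ?_ (k1.trans (by
    have := mul_nonneg hε.le hG0
    rw [hδd]
    linarith))
  have hVy := Vz_pos y
  have hden : 0 < Vz y * L := by positivity
  have hsub : (Icc 1 G).filter (fun g => ((J.filter (fun s => (primorial y * (g0 + g) - s).Prime)).card : ℝ) <
      (1 - ε) * (J.card / (Vz y * L))) ⊆ (Icc 1 G).filter (fun g =>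
        ((J'.filter (fun s => (primorial y * (g0 + g) - s).Prime)).card : ℝ) *
      Real.log (2 * (n : ℝ)) < (1 - 3 * δ) * (J'.card * (Vz y)⁻¹)) := by
    intro g hg
    rw [mem_filter] at hg ⊢
    refine ⟨hg.1, ?_⟩
    have h1 : ((J'.filter (fun s => (primorial y * (g0 + g) - s).Prime)).card : ℝ) ≤
        ((J.filter (fun s => (primorial y * (g0 + g) - s).Prime)).card : ℝ) := by
      exact_mod_cast card_le_card (filter_subset_filter _ hsubJ)
    have h2 := lt_of_le_of_lt h1 hg.2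
    obtain ⟨c, hc⟩ : ∃ c : ℝ, c = ((J'.filter (fun s => (primorial y * (g0 + g) - s).Prime)).card : ℝ) := ⟨_, rfl⟩
    have hc0 : 0 ≤ c := by rw [hc]; exact Nat.cast_nonneg _
    rw [← hc] at h2 ⊢
    have h3 : Real.log (2 * (n : ℝ)) ≤ (1 + δ) * L := by
      rw [hlogn]
      rw [div_le_iff₀ hδ] at hLδ
      have := Real.log_two_lt_d9
      nlinarith
    calc c * Real.log (2 * (n : ℝ)) ≤ c * ((1 + δ) * L) := mul_le_mul_of_nonneg_left h3 hc0
      _ < ((1 - ε) * (J.card / (Vz y * L))) * ((1 + δ) * L) := mul_lt_mul_of_pos_right h2 (by positivity)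
      _ = (1 - ε) * (1 + δ) * (J.card * (Vz y)⁻¹) := by
          field_simp
      _ ≤ (1 - 3 * δ) * (1 - δ) * (J.card * (Vz y)⁻¹) := by
          apply mul_le_mul_of_nonneg_right _ (by positivity)
          have h15 : (1 - ε) * (1 + δ) = 1 - ε + δ - ε * δ := by ring
          have h16 : (1 - 3 * δ) * (1 - δ) = 1 - 4 * δ + 3 * δ ^ 2 := by ring
          rw [h15, h16]
          have h17 : ε = 8 * δ := by rw [hδd]; ring
          rw [h17]
          have : 0 ≤ 8 * δ * δ := by positivity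
          have : 0 ≤ 3 * δ ^ 2 := by positivity
          linarith
      _ = (1 - 3 * δ) * (((1 - δ) * J.card) * (Vz y)⁻¹) := by ring
      _ ≤ (1 - 3 * δ) * (J'.card * (Vz y)⁻¹) := by
          apply mul_le_mul_of_nonneg_left _ (by linarith)
          exact mul_le_mul_of_nonneg_right hJJ (inv_pos.2 hVy).le
  exact_mod_cast card_le_card hsub

end Pool.Agent.V5helper51.SG
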